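import Pool.Agent.Helper57.ZF.Goals

/-! Project ZF, packet CLUS: the number of clusters. -/

set_option autoImplicit false

namespace Pool.Agent.Helper67.ZF

open Pool.Agent.Helper57.ZF

open scoped Classical in
/-- The number of clusters is at most a constant times the number of leaves. -/
theorem CLUS (hPN : G_PN) : G_CLUS := by
  intro M _ hD
  obtain ⟨C, hC⟩ := hPN M hD
  refine ⟨C + 1, fun P t rad L w hL => ?_⟩
  rcases isEmpty_or_nonempty M with hM | hM
  · rw [Finset.card_eq_zero.2]
    · exact Nat.zero_le _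
    · rw [Finset.image_eq_empty]
      exact Finset.eq_empty_of_isEmpty _
  set 𝒞 : Finset (Finset M) := (P.filter (fun p => IsoP rad L w p)).image (fun p => clus L w p)
    with h𝒞
  -- the basic facts
  have hbase : ∀ c ∈ 𝒞, ∃ (o : M) (ρ : ℝ), 0 < ρ ∧ o ∈ c ∧ c ⊆ L ∧ (∀ q ∈ c, dist q o ≤ ρ / 32) ∧
      ∀ q ∈ L, dist q o ≤ 32 * ρ → q ∈ c := by
    intro c hc
    rw [h𝒞, Finset.mem_image] at hc
    obtain ⟨p, hp, rfl⟩ := hc
    rw [Finset.mem_filter] at hp
    obtain ⟨hp, h1, h2⟩ := hp
    have hw := hL.wmem p hp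
    have hr := hL.radpos (w p) (hL.sub hw)
    have hρ : 0 < dist p (w p) := by linarith
    refine ⟨w p, dist p (w p), hρ, ?_, Finset.filter_subset _ _, ?_, ?_⟩
    · rw [clus, Finset.mem_filter]
      refine ⟨hw, ?_⟩
      rw [dist_self]
      positivity
    · intro q hq
      rw [clus, Finset.mem_filter] at hq
      exact hq.2
    · intro q hq h3
      rw [clus, Finset.mem_filter]
      refine ⟨hq, ?_⟩
      by_contra h4
      push Not at h4
      exact h2 ⟨q, hq, h4, h3⟩
  choose! o ρ hρ ho hsub hin hout using hbase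
  -- the diameter
  have hdiam : ∀ c ∈ 𝒞, ∃ u ∈ c, ∃ u' ∈ c, ∀ x ∈ c, ∀ y ∈ c, dist x y ≤ dist u u' := by
    intro c hc
    have hne : (c ×ˢ c).Nonempty := ⟨(o c, o c), Finset.mem_product.2 ⟨ho c hc, ho c hc⟩⟩
    obtain ⟨⟨u, u'⟩, hu, hmax⟩ := Finset.exists_max_image (c ×ˢ c) (fun z => dist z.1 z.2) hne
    rw [Finset.mem_product] at hu
    exact ⟨u, hu.1, u', hu.2, fun x hx y hy => hmax (x, y) (Finset.mem_product.2 ⟨hx, hy⟩)⟩
  choose! u hu u' hu' hmax using hdiam
  -- small diameter
  have hsmall : ∀ c ∈ 𝒞, dist (u c) (u' c) ≤ ρ c / 16 := by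
    intro c hc
    have h1 := hin c hc _ (hu c hc)
    have h2 := hin c hc _ (hu' c hc)
    have h3 := dist_triangle (u c) (o c) (u' c)
    rw [dist_comm (o c) (u' c)] at h3
    linarith
  -- inclusion
  have hincl : ∀ c ∈ 𝒞, ∀ c' ∈ 𝒞, ∀ s : ℝ, s ≤ dist (u c) (u' c) →
      dist (u c') (u' c') < 2 * s → dist (u c) (u c') < s → c' ⊆ c := by
    intro c hc c' hc' s h1 h2 h3 x hx
    have a1 := hsmall c hc
    have a2 := hin c hc _ (hu c hc)
    have a3 : dist (u c') (o c) ≤ 32 * ρ c := by
      have := dist_triangle (u c') (u c) (o c)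
      rw [dist_comm (u c') (u c)] at this
      have := hρ c hc
      linarith
    have a4 := hin c hc _ (hout c hc _ (hsub c' hc' (hu c' hc')) a3)
    have a5 := hmax c' hc' x hx (u c') (hu c' hc')
    apply hout c hc x (hsub c' hc' hx)
    have := dist_triangle x (u c') (o c)
    have := hρ c hc
    linarith
  -- the non-trivial clusters
  set 𝒩 : Finset (Finset M) := 𝒞.filter (fun c => 0 < dist (u c) (u' c)) with h𝒩
  set m : Finset M → ℤ := fun c => Int.log 2 (dist (u c) (u' c)) with hm
  have hscale : ∀ c ∈ 𝒩, (2 : ℝ) ^ m c ≤ dist (u c) (u' c) ∧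
      dist (u c) (u' c) < 2 * (2 : ℝ) ^ m c := by
    intro c hc
    rw [h𝒩, Finset.mem_filter] at hc
    constructor
    · have := Int.zpow_log_le_self (b := 2) (r := dist (u c) (u' c)) (by norm_num) hc.2
      simpa using this
    · have := Int.lt_zpow_succ_log_self (b := 2) (by norm_num) (dist (u c) (u' c))
      rw [zpow_add_one₀ (by norm_num)] at this
      simp only [Nat.cast_ofNat] at this
      rw [mul_comm]
      exact this
  have huniq : ∀ c ∈ 𝒩, ∀ c' ∈ 𝒩, m c = m c' → dist (u c) (u c') < (2 : ℝ) ^ m c → c = c' := by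
    intro c hc c' hc' hmm hd
    have h1 := hscale c hc
    have h2 := hscale c' hc'
    rw [← hmm] at h2
    have hc1 : c ∈ 𝒞 := (Finset.mem_filter.1 hc).1
    have hc1' : c' ∈ 𝒞 := (Finset.mem_filter.1 hc').1
    apply Finset.Subset.antisymm
    · exact hincl c' hc1' c hc1 _ h2.1 h1.2 (by rw [dist_comm]; exact hd)
    · exact hincl c hc1 c' hc1' _ h1.1 h2.2 hd
  have hpn := hC L (𝒩.image m) (fun j => (𝒩.filter (fun c => m c = j)).image u) (by
    intro j hj
    refine ⟨?_, ?_, ?_⟩
    · intro x hx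
      rw [Finset.mem_image] at hx
      obtain ⟨c, hc, rfl⟩ := hx
      have hc1 : c ∈ 𝒞 := (Finset.mem_filter.1 (Finset.mem_filter.1 hc).1).1
      exact hsub c hc1 (hu c hc1)
    · intro x hx y hy hxy
      rw [Finset.mem_image] at hx hy
      obtain ⟨c, hc, rfl⟩ := hx
      obtain ⟨c', hc', rfl⟩ := hy
      rw [Finset.mem_filter] at hc hc'
      by_contra hlt
      push Not at hlt
      apply hxy
      rw [huniq c hc.1 c' hc'.1 (hc.2.trans hc'.2.symm) (by rw [hc.2]; exact hlt)]
    · intro x hx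
      rw [Finset.mem_image] at hx
      obtain ⟨c, hc, rfl⟩ := hx
      rw [Finset.mem_filter] at hc
      have hc1 : c ∈ 𝒞 := (Finset.mem_filter.1 hc.1).1
      have h1 := hscale c hc.1
      rw [hc.2] at h1
      have h2 : (0 : ℝ) < 2 ^ j := by positivity
      exact ⟨u' c, hsub c hc1 (hu' c hc1), by linarith, by linarith⟩)
  have hcard : ∀ j, ((𝒩.filter (fun c => m c = j)).image u).card =
      (𝒩.filter (fun c => m c = j)).card := by
    intro j
    apply Finset.card_image_of_injOn
    intro c hc c' hc' hcc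
    rw [Finset.mem_coe, Finset.mem_filter] at hc hc'
    apply huniq c hc.1 c' hc'.1 (hc.2.trans hc'.2.symm)
    rw [hcc, dist_self]
    positivity
  have hN : 𝒩.card ≤ C * L.card := by
    refine le_trans (le_of_eq ?_) hpn
    rw [Finset.card_eq_sum_card_image m 𝒩]
    exact Finset.sum_congr rfl fun j _ => (hcard j).symm
  -- the trivial ones
  have hT : (𝒞.filter (fun c => ¬ 0 < dist (u c) (u' c))).card ≤ L.card := by
    apply Finset.card_le_card_of_injOn u
    · intro c hc
      rw [Finset.mem_coe, Finset.mem_filter] at hc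
      exact hsub c hc.1 (hu c hc.1)
    · intro c hc c' hc' hcc
      rw [Finset.mem_coe, Finset.mem_filter] at hc hc'
      have hsing : ∀ c ∈ 𝒞, ¬ 0 < dist (u c) (u' c) → c = {u c} := by
        intro c hc h
        apply Finset.eq_singleton_iff_unique_mem.2
        refine ⟨hu c hc, fun x hx => ?_⟩
        have h1 := hmax c hc x hx (u c) (hu c hc)
        have h2 : dist x (u c) ≤ 0 := by
          push Not at h
          linarith
        exact dist_le_zero.1 h2
      rw [hsing c hc.1 hc.2, hsing c' hc'.1 hc'.2, hcc]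
  have hsum := Finset.card_filter_add_card_filter_not (s := 𝒞)
    (fun c => 0 < dist (u c) (u' c))
  rw [← h𝒩] at hsum
  have : 𝒞.card ≤ (C + 1) * L.card := by
    rw [add_mul, one_mul]
    omega
  exact this

end Pool.Agent.Helper67.ZF
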